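import Pool.Agent.P8H14.CN.Stm
import Pool.Agent.H38R2.CG.N3

/-!
# The class number formula (CNF)
-/

set_option autoImplicit false
set_option linter.all false

namespace Pool.Agent.P8H7.CN

open Finset Filter NumberField Module NumberField.InfinitePlace NumberField.Units
open Pool.Agent.H38R2.CG Pool.Agent.P8H14.CN

section
variable {K : Type} [Field K] [NumberField K]

lemma torsion_pm (φ : K →+* ℝ) (x : (𝓞 K)ˣ) (hx : x ∈ torsion K) : x = 1 ∨ x = -1 := by
  rw [torsion, CommGroup.mem_torsion, isOfFinOrder_iff_pow_eq_one] at hx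
  obtain ⟨n, hn, h⟩ := hx
  have h1 : (φ ((x : 𝓞 K) : K)) ^ n = 1 := by
    rw [← map_pow]
    have h2 : (((x : 𝓞 K)) : K) ^ n = 1 := by
      have h3 := congrArg (fun y : (𝓞 K)ˣ => ((y : 𝓞 K) : K)) h
      simpa using h3
    rw [h2, map_one]
  have h2 : |φ ((x : 𝓞 K) : K)| = 1 := by
    have h4 : |φ ((x : 𝓞 K) : K)| ^ n = 1 := by rw [← abs_pow, h1, abs_one]
    exact (pow_eq_one_iff_of_nonneg (abs_nonneg _) hn.ne').mp h4
  rcases (abs_eq zero_le_one).mp h2 with h | h
  · left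
    apply Units.ext
    apply RingOfIntegers.ext
    apply φ.injective
    rw [h]; simp
  · right
    apply Units.ext
    apply RingOfIntegers.ext
    apply φ.injective
    rw [h]; simp

lemma tors (φ : K →+* ℝ) : torsionOrder K = 2 := by
  rw [torsionOrder, Nat.card_eq_two_iff]
  refine ⟨1, ⟨-1, ?_⟩, ?_, ?_⟩
  · rw [torsion, CommGroup.mem_torsion, isOfFinOrder_iff_pow_eq_one]
    exact ⟨2, by norm_num, by simp⟩
  · intro h
    have h3 := congrArg (fun y : torsion K => (((y : (𝓞 K)ˣ) : 𝓞 K) : K)) h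
    have h4 : (1 : K) = -1 := by simpa using h3
    have h6 : (2 : K) = 0 := by linear_combination h4
    exact two_ne_zero h6
  · ext x
    simp only [Set.mem_insert_iff, Set.mem_singleton_iff, Set.mem_univ, iff_true]
    rcases torsion_pm φ (x : (𝓞 K)ˣ) x.2 with h | h
    · left; exact Subtype.ext h
    · right; exact Subtype.ext h

open scoped Classical in
lemma places (h2 : finrank ℚ K = 2) (φ : K →+* ℝ) : nrComplexPlaces K = 0 ∧ nrRealPlaces K = 2 := by
  have h := card_add_two_mul_card_eq_rank K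
  rw [h2] at h
  have h3 : 0 < nrRealPlaces K := by
    unfold nrRealPlaces
    rw [Fintype.card_pos_iff]
    refine ⟨⟨InfinitePlace.mk (Complex.ofRealHom.comp φ), ⟨Complex.ofRealHom.comp φ, ?_, rfl⟩⟩⟩
    rw [ComplexEmbedding.isReal_iff]
    ext x
    rw [ComplexEmbedding.conjugate_coe_eq]
    simp
  omega

end

lemma fund_dsc (d : ℕ) (hd : 1 < d) (hsq : Squarefree d) : IsFund (dsc d) := by
  unfold dsc
  split_ifs with h
  · exact ⟨hd, Or.inl ⟨h, hsq⟩⟩
  · refine ⟨by omega, Or.inr ⟨d, rfl, ?_, hsq⟩⟩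
    have h0 : d % 4 ≠ 0 := by
      intro h0
      have h1 : 2 * 2 ∣ d := by
        have : 4 ∣ d := Nat.dvd_of_mod_eq_zero h0
        simpa using this
      have h2 := hsq 2 h1
      rw [Nat.isUnit_iff] at h2
      omega
    omega

theorem cnf (hN0 : P_N0) (hN0d : P_N0d) (hN3 : P_N3) : StmtCNF := by
  intro K _ _ d hd hsq hfr hx
  have hD := fund_dsc d hd hsq
  have hdisc : discr K = ((dsc d : ℕ) : ℤ) := by
    rw [hN0d K d hd hsq hfr hx]
    unfold dsc
    split_ifs with h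
    · rfl
    · push_cast
      rfl
  obtain ⟨e⟩ := hN0 K (dsc d) hD hfr hdisc
  obtain ⟨hnn, hall, -⟩ := hN3 K (dsc d) hD hfr hdisc
  obtain ⟨hc, hr⟩ := places hfr e.σ
  have htop := N3h.lim_H K ⊤
  have htop' : Tendsto (fun N : ℕ => (Nat.card {I : nonZeroDivisors (Ideal (𝓞 K)) //
      Ideal.absNorm (I : Ideal (𝓞 K)) ≤ N} : ℝ) / N) atTop
      (nhds ((Nat.card (⊤ : Subgroup (ClassGroup (𝓞 K))) : ℝ) * N3h.kap K)) := by
    refine htop.congr ?_
    intro N
    simp only [Subgroup.mem_top, and_true]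
  have heq : Lone (dsc d) = (Nat.card (⊤ : Subgroup (ClassGroup (𝓞 K))) : ℝ) * N3h.kap K :=
    tendsto_nhds_unique hall htop'
  have hcl : Nat.card (⊤ : Subgroup (ClassGroup (𝓞 K))) = classNumber K := by
    rw [Subgroup.card_top, Nat.card_eq_fintype_card]
    rfl
  have hDpos : (0 : ℝ) < ((dsc d : ℕ) : ℝ) := by
    have := hD.1
    have h0 : 0 < dsc d := by omega
    exact_mod_cast h0
  have hs : 0 < √((dsc d : ℕ) : ℝ) := Real.sqrt_pos.mpr hDpos
  have hkap : N3h.kap K = 2 * Units.regulator K / √((dsc d : ℕ) : ℝ) := by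
    unfold N3h.kap
    rw [hc, hr, tors e.σ, hdisc]
    have h1 : |(((dsc d : ℕ) : ℤ) : ℝ)| = ((dsc d : ℕ) : ℝ) := by
      rw [Int.cast_natCast, abs_of_nonneg hDpos.le]
    rw [h1]
    push_cast
    field_simp
  rw [heq, hcl, hkap]
  field_simp

end Pool.Agent.P8H7.CN
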